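import Mathlib

set_option autoImplicit false

open Finset

namespace Pool.Agent.Lib.P761a8f

/-- binomial coefficient of a real number. -/
noncomputable def b (α : ℝ) (k : ℕ) : ℝ := (∏ j ∈ range k, (α - (j : ℝ))) / (k.factorial : ℝ)

lemma b_zero (α : ℝ) : b α 0 = 1 := by simp [b]

lemma b_succ (α : ℝ) (k : ℕ) : b α (k + 1) = b α k * (α - k) / (k + 1) := by
  unfold b
  rw [prod_range_succ, Nat.factorial_succ]
  push_cast
  have h1 : (k.factorial : ℝ) ≠ 0 := by exact_mod_cast k.factorial_ne_zero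
  have h2 : (k : ℝ) + 1 ≠ 0 := by positivity
  field_simp

lemma b_one (α : ℝ) : b α 1 = α := by
  have := b_succ α 0
  rw [b_zero] at this
  simpa using this

lemma b_cast (α : ℝ) (k : ℕ) :
    ((∏ j ∈ range k, ((α : ℂ) - (j : ℂ))) / (k.factorial : ℂ)) = ((b α k : ℝ) : ℂ) := by
  unfold b
  push_cast
  rfl

lemma absorb (α : ℝ) (k : ℕ) : (k + 1) * b (α + 1) (k + 1) = (α + 1) * b α k := by
  induction k with
  | zero => rw [b_zero, b_one]; simp
  | succ k ih =>
    rw [b_succ (α + 1) (k + 1), b_succ α k]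
    push_cast
    have h2 : (k : ℝ) + 1 ≠ 0 := by positivity
    have h3 : (k : ℝ) + 1 + 1 ≠ 0 := by positivity
    field_simp
    linear_combination (α - k) * ih

lemma pascal (α : ℝ) (k : ℕ) : b (α + 1) (k + 1) = b α (k + 1) + b α k := by
  have h1 := absorb α k
  have h2 : (k : ℝ) + 1 ≠ 0 := by positivity
  rw [b_succ α k]
  field_simp
  linear_combination h1

/-- partial sums -/
noncomputable def A (α : ℝ) (n : ℕ) (x : ℂ) : ℂ := ∑ k ∈ range (n + 1), ((b α k : ℝ) : ℂ) * x ^ k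

noncomputable def A1 (α : ℝ) (n : ℕ) : ℝ := ∑ k ∈ range (n + 1), b α k

lemma A_succ (α : ℝ) (n : ℕ) (x : ℂ) :
    A α (n + 1) x = A α n x + ((b α (n + 1) : ℝ) : ℂ) * x ^ (n + 1) := by
  unfold A
  rw [sum_range_succ]

lemma A1_succ (α : ℝ) (n : ℕ) : A1 α (n + 1) = A1 α n + b α (n + 1) := by
  unfold A1
  rw [sum_range_succ]

lemma A_zero (α : ℝ) (x : ℂ) : A α 0 x = 1 := by simp [A, b_zero]

lemma A1_zero (α : ℝ) : A1 α 0 = 1 := by simp [A1, b_zero]

lemma A_pascal (α : ℝ) (n : ℕ) (x : ℂ) :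
    A (α + 1) (n + 1) x = A α (n + 1) x + x * A α n x := by
  induction n with
  | zero =>
    rw [A_succ, A_succ, A_zero, A_zero, b_one, b_one]
    push_cast; ring
  | succ n ih =>
    rw [A_succ, ih, A_succ α (n + 1), A_succ α n, pascal]
    push_cast; ring

lemma A1_pascal (α : ℝ) (n : ℕ) :
    A1 (α + 1) (n + 1) = A1 α (n + 1) + A1 α n := by
  induction n with
  | zero =>
    rw [A1_succ, A1_succ, A1_zero, A1_zero, b_one, b_one]
    ring
  | succ n ih =>
    rw [A1_succ, ih, A1_succ α (n + 1), A1_succ α n, pascal]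
    ring

/-- the property to be proven for all coefficients -/
def P (α : ℝ) : Prop := ∀ n : ℕ, ∀ x : ℂ, ‖x‖ = 1 → ‖A α n x‖ ≤ A1 α n

lemma P_succ {α : ℝ} (h : P α) : P (α + 1) := by
  intro n x hx
  rcases n with _ | n
  · rw [A_zero, A1_zero]; simp
  · rw [A_pascal, A1_pascal]
    calc _ ≤ ‖A α (n + 1) x‖ + ‖x * A α n x‖ := norm_add_le _ _
      _ ≤ A1 α (n + 1) + A1 α n := by
          rw [norm_mul, hx, one_mul]
          exact add_le_add (h _ _ hx) (h _ _ hx)

/-- signed coefficients -/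
noncomputable def c (γ : ℝ) (k : ℕ) : ℝ := (-1) ^ k * b γ (k + 1)

lemma c_zero (γ : ℝ) : c γ 0 = γ := by simp [c, b_one]

lemma c_succ (γ : ℝ) (k : ℕ) : c γ (k + 1) = c γ k * (k + 1 - γ) / (k + 2) := by
  unfold c
  rw [b_succ γ (k + 1), pow_succ]
  push_cast
  have h3 : (k : ℝ) + 1 + 1 ≠ 0 := by positivity
  have h4 : (k : ℝ) + 2 ≠ 0 := by positivity
  field_simp
  ring

lemma b_eq_c (γ : ℝ) (k : ℕ) : b γ (k + 1) = (-1) ^ k * c γ k := by
  unfold c
  rw [← mul_assoc, ← mul_pow]; simp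

lemma c_pos {γ : ℝ} (h0 : 0 < γ) (h1 : γ < 1) (k : ℕ) : 0 < c γ k := by
  induction k with
  | zero => rw [c_zero]; exact h0
  | succ k ih =>
    rw [c_succ]
    have : (0 : ℝ) < k + 1 - γ := by
      have : (0 : ℝ) ≤ k := Nat.cast_nonneg k
      linarith
    positivity

lemma sum_c {γ : ℝ} (h0 : γ ≠ 0) (m : ℕ) :
    1 - ∑ k ∈ range m, c γ k = c γ m * (m + 1) / γ := by
  induction m with
  | zero => simp [c_zero, h0]
  | succ m ih =>
    rw [sum_range_succ, ← sub_sub, ih, c_succ]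
    push_cast
    have h4 : (m : ℝ) + 2 ≠ 0 := by positivity
    field_simp
    ring

lemma sum_c_le {γ : ℝ} (h0 : 0 < γ) (h1 : γ < 1) (m : ℕ) : ∑ k ∈ range m, c γ k ≤ 1 := by
  have h := sum_c h0.ne' m
  have h2 := c_pos h0 h1 m
  have : 0 ≤ c γ m * (m + 1) / γ := by positivity
  linarith

lemma sum_c_odd_le {γ : ℝ} (h0 : 0 < γ) (h1 : γ < 1) (j : ℕ) :
    ∑ i ∈ range j, c γ (2 * i + 1) ≤ 1 := by
  have h : ∑ i ∈ range j, c γ (2 * i + 1) ≤ ∑ k ∈ range (2 * j), c γ k := by
    induction j with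
    | zero => simp
    | succ j ih =>
      rw [sum_range_succ, show 2 * (j + 1) = 2 * j + 1 + 1 by ring, sum_range_succ, sum_range_succ]
      have := c_pos h0 h1 (2 * j)
      linarith
  exact h.trans (sum_c_le h0 h1 _)

lemma norm_sq_lin (u v : ℝ) {x : ℂ} (hx : ‖x‖ = 1) :
    ‖(u : ℂ) + v * x‖ ^ 2 = (u + v) ^ 2 - 2 * u * v * (1 - x.re) := by
  have hx2 : x.re ^ 2 + x.im ^ 2 = 1 := by
    have := Complex.sq_norm x
    rw [hx, Complex.normSq_apply] at this
    nlinarith
  rw [Complex.sq_norm, Complex.normSq_apply]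
  simp only [Complex.add_re, Complex.ofReal_re, Complex.mul_re, Complex.ofReal_im, zero_mul,
    sub_zero, Complex.add_im, Complex.mul_im, add_zero, zero_add]
  linear_combination v ^ 2 * hx2

lemma re_le_one {x : ℂ} (hx : ‖x‖ = 1) : x.re ≤ 1 := by
  have := Complex.re_le_norm x
  rwa [hx] at this

lemma neg_one_le_re {x : ℂ} (hx : ‖x‖ = 1) : -1 ≤ x.re := by
  have := Complex.abs_re_le_norm x
  rw [hx] at this
  exact (abs_le.mp this).1

/-- the case `1 < α < 2`. -/
lemma odd_bound {γ : ℝ} (h0 : 0 < γ) (h1 : γ < 1) {x : ℂ} (hx : ‖x‖ = 1) (j : ℕ) :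
    ‖A (γ + 1) (2 * j + 1) x‖ ≤ A1 (γ + 1) (2 * j + 1) - (1 - x.re) / (2 + γ) *
      ((γ + 1) - (γ + 1) * ∑ i ∈ range j, c γ (2 * i + 1)) := by
  have hre := re_le_one hx
  have hre' := neg_one_le_re hx
  induction j with
  | zero =>
    have e1 : A (γ + 1) (2 * 0 + 1) x = ((1 : ℝ) : ℂ) + ((γ + 1 : ℝ) : ℂ) * x := by
      rw [mul_zero, A_succ, A_zero, zero_add, b_one]; simp
    have e2 : A1 (γ + 1) (2 * 0 + 1) = 1 + (γ + 1) := by
      rw [mul_zero, A1_succ, A1_zero, zero_add, b_one]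
    rw [e1, e2]
    simp only [range_zero, sum_empty, mul_zero, sub_zero]
    have h2 := norm_sq_lin 1 (γ + 1) hx
    have h3 : (1 - x.re) / (2 + γ) * (γ + 1) ≤ 2 := by
      rw [div_mul_eq_mul_div, div_le_iff₀ (by linarith)]
      nlinarith
    apply le_of_sq_le_sq _ (by linarith)
    rw [h2]
    have h4 : (1 + (γ + 1) - (1 - x.re) / (2 + γ) * (γ + 1)) ^ 2
        = (1 + (γ + 1)) ^ 2 - 2 * 1 * (γ + 1) * (1 - x.re)
          + ((1 - x.re) / (2 + γ) * (γ + 1)) ^ 2 := by
      have : 2 + γ ≠ 0 := by linarith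
      field_simp
      ring
    rw [h4]
    nlinarith [sq_nonneg ((1 - x.re) / (2 + γ) * (γ + 1))]
  | succ j ih =>
    rw [show 2 * (j + 1) + 1 = 2 * j + 1 + 1 + 1 by ring, A_succ, A_succ, A1_succ, A1_succ,
      sum_range_succ]
    set p := b (γ + 1) (2 * j + 1 + 1) with hp
    set q := b (γ + 1) (2 * j + 1 + 1 + 1) with hq
    set cc := c γ (2 * j + 1) with hcc
    have hccpos : 0 < cc := c_pos h0 h1 _
    -- relations
    have r1 : (2 * (j : ℝ) + 3) * q = -((γ + 1) * cc) := by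
      have := absorb γ (2 * j + 1 + 1)
      rw [← hq, b_eq_c, ← hcc] at this
      have h5 : (-1 : ℝ) ^ (2 * j + 1) = -1 := by rw [pow_add, pow_mul]; simp
      rw [h5] at this
      push_cast at this
      linarith
    have r2 : q = p * ((γ + 1) - (2 * j + 2)) / (2 * j + 3) := by
      have := b_succ (γ + 1) (2 * j + 1 + 1)
      rw [← hq, ← hp] at this
      rw [this]
      push_cast
      ring
    have hq0 : q < 0 := by
      have h6 : (2 * (j : ℝ) + 3) * q < 0 := by
        rw [r1]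
        have : 0 < (γ + 1) * cc := by positivity
        linarith
      by_contra hcon
      push Not at hcon
      have : 0 ≤ (2 * (j : ℝ) + 3) * q := by positivity
      linarith
    have hj0 : (0 : ℝ) ≤ j := Nat.cast_nonneg j
    have hneg : (γ + 1) - (2 * (j : ℝ) + 2) < 0 := by linarith
    have r3 : p * ((2 * j + 2) - (γ + 1)) = -((2 * j + 3) * q) := by
      rw [r2]
      have : 2 * (j : ℝ) + 3 ≠ 0 := by positivity
      field_simp
      ring
    have hp0 : 0 < p := by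
      by_contra hcon
      push Not at hcon
      have h6 : p * ((2 * j + 2) - (γ + 1)) ≤ 0 :=
        mul_nonpos_of_nonpos_of_nonneg hcon (by linarith)
      rw [r3] at h6
      nlinarith
    have r4 : p + q = p * (2 + γ) / (2 * j + 3) := by
      rw [r2]
      have : 2 * (j : ℝ) + 3 ≠ 0 := by positivity
      field_simp
      ring
    have hpq : 0 < p + q := by rw [r4]; positivity
    have key : ‖((p : ℝ) : ℂ) + (q : ℂ) * x‖ ≤ (p + q) + (1 - x.re) / (2 + γ) * ((γ + 1) * cc) := by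
      have h2 := norm_sq_lin p q hx
      have h7 : 0 ≤ (1 - x.re) / (2 + γ) * ((γ + 1) * cc) := by
        apply mul_nonneg (div_nonneg (by linarith) (by linarith)) (by positivity)
      apply le_of_sq_le_sq _ (by linarith)
      rw [h2]
      -- 2 (p+q) * t = -2 p q (1-re)
      have h8 : 2 * (p + q) * ((1 - x.re) / (2 + γ) * ((γ + 1) * cc)) = -(2 * p * q * (1 - x.re)) := by
        rw [r4]
        have h9 : (γ + 1) * cc = -((2 * (j : ℝ) + 3) * q) := by linarith
        rw [h9]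
        have : 2 * (j : ℝ) + 3 ≠ 0 := by positivity
        have : 2 + γ ≠ 0 := by linarith
        field_simp
      nlinarith [sq_nonneg ((1 - x.re) / (2 + γ) * ((γ + 1) * cc))]
    have e3 : A (γ + 1) (2 * j + 1) x + (p : ℂ) * x ^ (2 * j + 1 + 1) + (q : ℂ) * x ^ (2 * j + 1 + 1 + 1)
        = A (γ + 1) (2 * j + 1) x + x ^ (2 * j + 1 + 1) * ((p : ℂ) + q * x) := by ring
    rw [e3]
    calc _ ≤ ‖A (γ + 1) (2 * j + 1) x‖ + ‖x ^ (2 * j + 1 + 1) * ((p : ℂ) + q * x)‖ :=
          norm_add_le _ _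
      _ = ‖A (γ + 1) (2 * j + 1) x‖ + ‖(p : ℂ) + q * x‖ := by
          rw [norm_mul, norm_pow, hx, one_pow, one_mul]
      _ ≤ _ := add_le_add ih key
      _ = _ := by ring

lemma b_even_pos {γ : ℝ} (h0 : 0 < γ) (h1 : γ < 1) (j : ℕ) : 0 ≤ b (γ + 1) (2 * j + 2) := by
  have := absorb γ (2 * j + 1)
  rw [b_eq_c γ (2 * j)] at this
  have h5 : (-1 : ℝ) ^ (2 * j) = 1 := by rw [pow_mul]; simp
  rw [h5, one_mul] at this
  have h2 := c_pos h0 h1 (2 * j)
  have h3 : (0 : ℝ) < ((2 * j + 1 : ℕ) : ℝ) + 1 := by positivity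
  have h4 : 0 ≤ (((2 * j + 1 : ℕ) : ℝ) + 1) * b (γ + 1) (2 * j + 1 + 1) := by
    rw [this]; positivity
  exact nonneg_of_mul_nonneg_right h4 h3

lemma P_one_two {γ : ℝ} (h0 : 0 < γ) (h1 : γ < 1) : P (γ + 1) := by
  have hodd : ∀ j : ℕ, ∀ x : ℂ, ‖x‖ = 1 →
      ‖A (γ + 1) (2 * j + 1) x‖ ≤ A1 (γ + 1) (2 * j + 1) := by
    intro j x hx
    have h := odd_bound h0 h1 hx j
    have h2 := sum_c_odd_le h0 h1 j
    have hre := re_le_one hx
    have h3 : 0 ≤ (1 - x.re) / (2 + γ) *
      ((γ + 1) - (γ + 1) * ∑ i ∈ range j, c γ (2 * i + 1)) := by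
      apply mul_nonneg (div_nonneg (by linarith) (by linarith))
      nlinarith
    linarith
  intro n x hx
  rcases Nat.even_or_odd' n with ⟨j, rfl | rfl⟩
  · rcases j with _ | j
    · rw [mul_zero, A_zero, A1_zero]; simp
    · rw [show 2 * (j + 1) = 2 * j + 1 + 1 by ring, A_succ, A1_succ]
      have hb := b_even_pos h0 h1 j
      calc _ ≤ ‖A (γ + 1) (2 * j + 1) x‖ + ‖((b (γ + 1) (2 * j + 1 + 1) : ℝ) : ℂ) *
            x ^ (2 * j + 1 + 1)‖ := norm_add_le _ _
        _ ≤ _ := by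
            rw [norm_mul, norm_pow, hx, one_pow, mul_one, Complex.norm_real, Real.norm_eq_abs,
              abs_of_nonneg hb]
            exact add_le_add (hodd j x hx) le_rfl
  · exact hodd j x hx

lemma P_one : P 1 := by
  intro n x hx
  have hb : ∀ k : ℕ, b 1 (k + 2) = 0 := by
    intro k
    unfold b
    have : ∏ j ∈ range (k + 2), ((1 : ℝ) - (j : ℝ)) = 0 := by
      apply prod_eq_zero (i := 1) (by simp)
      simp
    rw [this, zero_div]
  have hA : ∀ n, A 1 (n + 1) x = 1 + x ∧ A1 1 (n + 1) = 2 := by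
    intro n
    induction n with
    | zero =>
      constructor
      · rw [A_succ, A_zero, zero_add, b_one]; simp
      · rw [A1_succ, A1_zero, zero_add, b_one]; norm_num
    | succ n ih =>
      constructor
      · rw [A_succ, ih.1, hb]; simp
      · rw [A1_succ, ih.2, hb]; simp
  rcases n with _ | n
  · rw [A_zero, A1_zero]; simp
  · rw [(hA n).1, (hA n).2]
    calc _ ≤ ‖(1 : ℂ)‖ + ‖x‖ := norm_add_le _ _
      _ = 2 := by rw [hx]; norm_num

lemma P_ge_one {α : ℝ} (hα : 1 ≤ α) : P α := by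
  have key : ∀ N : ℕ, ∀ α : ℝ, 1 ≤ α → α < N + 2 → P α := by
    intro N
    induction N with
    | zero =>
      intro α h1 h2
      rcases eq_or_lt_of_le h1 with h | h
      · rw [← h]; exact P_one
      · have := P_one_two (γ := α - 1) (by linarith) (by simp at h2; linarith)
        rwa [sub_add_cancel] at this
    | succ N ih =>
      intro α h1 h2
      by_cases h : α < N + 2
      · exact ih α h1 h
      · push Not at h
        have h3 : (0 : ℝ) ≤ N := Nat.cast_nonneg N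
        push_cast at h2
        have := P_succ (ih (α - 1) (by linarith) (by linarith))
        rwa [sub_add_cancel] at this
  obtain ⟨N, hN⟩ := exists_nat_gt α
  exact key N α hα (by linarith)

end Pool.Agent.Lib.P761a8f
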