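import Pool.Agent.Lib.P761a8f.Moments

set_option autoImplicit false

open Finset Filter Topology MeasureTheory intervalIntegral

namespace Pool.Agent.Lib.P761a8f

/-- modulus of `1 + x t` -/
noncomputable def D (δ t : ℝ) : ℝ := Real.sqrt ((1 - t) ^ 2 + 4 * t * δ ^ 2)

lemma D_arg_pos {δ t : ℝ} (hδ : 0 < δ) (ht0 : 0 ≤ t) : 0 < (1 - t) ^ 2 + 4 * t * δ ^ 2 := by
  rcases eq_or_lt_of_le ht0 with h | h
  · rw [← h]; norm_num
  · have : 0 < 4 * t * δ ^ 2 := by positivity
    nlinarith [sq_nonneg (1 - t)]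

lemma D_pos {δ t : ℝ} (hδ : 0 < δ) (ht0 : 0 ≤ t) : 0 < D δ t :=
  Real.sqrt_pos.mpr (D_arg_pos hδ ht0)

lemma D_sq {δ t : ℝ} (hδ : 0 < δ) (ht0 : 0 ≤ t) : D δ t ^ 2 = (1 - t) ^ 2 + 4 * t * δ ^ 2 :=
  Real.sq_sqrt (D_arg_pos hδ ht0).le

lemma D_continuous (δ : ℝ) : Continuous (D δ) := by
  unfold D; fun_prop

/-- the kernel -/
noncomputable def ker (δ t : ℝ) : ℝ :=
  (1 / (1 + t) - (2 * δ - 1) / (1 + (2 * δ - 1) * t)) - (1 / D δ t - 1 / (1 + t))

lemma N_pos {δ t : ℝ} (hδ : 0 < δ) (ht0 : 0 ≤ t) (ht1 : t ≤ 1) : 0 < 1 + (2 * δ - 1) * t := by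
  rcases eq_or_lt_of_le ht1 with h | h
  · rw [h]; linarith
  · nlinarith

lemma ker_sign {δ t : ℝ} (hδ : 0 < δ) (hδ1 : δ < 1) (ht0 : 0 < t) (ht1 : t < 1) :
    ∃ s : ℝ, 0 < s ∧ ker δ t = s * ((2 - δ) * ((1 - t) ^ 2 + 4 * δ ^ 2 * t * (1 - t))
      + 4 * δ * (2 * δ - 1) * t ^ 2) := by
  have hD := D_pos hδ ht0.le
  have hD2 := D_sq hδ ht0.le
  have hN := N_pos hδ ht0.le ht1.le
  set d := D δ t with hd
  set N := 1 + (2 * δ - 1) * t with hNdef
  have hS : 0 < d * (N + 2 - 2 * δ) + (1 + t) * N := by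
    have : 0 < N + 2 - 2 * δ := by linarith
    positivity
  refine ⟨4 * (1 - δ) * (1 - t) / ((1 + t) * d * N * (d * (N + 2 - 2 * δ) + (1 + t) * N)), ?_, ?_⟩
  · have h1 : 0 < 1 - δ := by linarith
    have h2 : 0 < 1 - t := by linarith
    positivity
  · have hnS : (d * (N + 2 - 2 * δ) - (1 + t) * N) * (d * (N + 2 - 2 * δ) + (1 + t) * N)
        = 4 * (1 - δ) * (1 - t) * ((2 - δ) * ((1 - t) ^ 2 + 4 * δ ^ 2 * t * (1 - t))
      + 4 * δ * (2 * δ - 1) * t ^ 2) := by
      have : (d * (N + 2 - 2 * δ) - (1 + t) * N) * (d * (N + 2 - 2 * δ) + (1 + t) * N)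
          = d ^ 2 * (N + 2 - 2 * δ) ^ 2 - (1 + t) ^ 2 * N ^ 2 := by ring
      rw [this, hD2, hNdef]
      ring
    have hk : ker δ t = (d * (N + 2 - 2 * δ) - (1 + t) * N) / ((1 + t) * d * N) := by
      unfold ker
      rw [← hd, ← hNdef]
      have h1 : 1 + t ≠ 0 := by positivity
      field_simp
      rw [hNdef]
      ring
    rw [hk, div_eq_iff (by positivity)]
    rw [div_mul_eq_mul_div, div_mul_eq_mul_div, eq_div_iff (by positivity)]
    linear_combination ((1 + t) * d * N) * hnS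

lemma w_eq {α t : ℝ} (ht0 : 0 < t) (ht1 : t < 1) : w α t = ((1 - t) / t) ^ α := by
  unfold w
  rw [Real.div_rpow (by linarith) ht0.le, Real.rpow_neg ht0.le]
  ring

lemma crossing {α δ : ℝ} (h0 : 0 < α) (hδ : 0 < δ) (hδ1 : δ < 1) :
    ∃ ρ : ℝ, 0 ≤ ρ ∧ ∀ t ∈ Set.Ioo (0 : ℝ) 1, ρ * ker δ t ≤ ker δ t * w α t := by
  by_cases hcase : 1 ≤ 2 * δ
  · refine ⟨0, le_rfl, ?_⟩
    intro t ht
    obtain ⟨s, hs, hk⟩ := ker_sign hδ hδ1 ht.1 ht.2
    rw [zero_mul]
    apply mul_nonneg _ (w_nonneg ht.1.le ht.2.le)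
    rw [hk]
    have h1 : 0 < 1 - t := by linarith [ht.2]
    have h2 : 0 < 2 - δ := by linarith
    have h3 : 0 ≤ 2 * δ - 1 := by linarith
    have h4 := ht.1
    positivity
  · push Not at hcase
    set M : ℝ := 4 * δ * (1 - 2 * δ) / (2 - δ) with hM
    have h2δ : 0 < 2 - δ := by linarith
    have hMpos : 0 < M := by
      have : 0 < 1 - 2 * δ := by linarith
      positivity
    set v0 : ℝ := -(2 * δ ^ 2) + Real.sqrt (4 * δ ^ 4 + M) with hv0
    have hsq : Real.sqrt (4 * δ ^ 4 + M) ^ 2 = 4 * δ ^ 4 + M := Real.sq_sqrt (by positivity)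
    have hv0pos : 0 < v0 := by
      have : 2 * δ ^ 2 < Real.sqrt (4 * δ ^ 4 + M) := by
        apply Real.lt_sqrt_of_sq_lt
        nlinarith
      rw [hv0]; linarith
    have hv0eq : v0 ^ 2 + 4 * δ ^ 2 * v0 = M := by
      rw [hv0]
      linear_combination hsq
    have hMeq : (2 - δ) * M = 4 * δ * (1 - 2 * δ) := by
      rw [hM]; field_simp
    refine ⟨v0 ^ α, Real.rpow_nonneg hv0pos.le _, ?_⟩
    intro t ht
    obtain ⟨s, hs, hk⟩ := ker_sign hδ hδ1 ht.1 ht.2
    set v : ℝ := (1 - t) / t with hv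
    have hvpos : 0 < v := div_pos (by linarith [ht.2]) ht.1
    have hvt : v * t = 1 - t := by rw [hv]; field_simp [ht.1.ne']
    have hq : (2 - δ) * ((1 - t) ^ 2 + 4 * δ ^ 2 * t * (1 - t)) + 4 * δ * (2 * δ - 1) * t ^ 2
        = (2 - δ) * t ^ 2 * ((v ^ 2 + 4 * δ ^ 2 * v) - M) := by
      rw [← hvt]
      linear_combination (t ^ 2) * hMeq
    rw [w_eq ht.1 ht.2, ← hv]
    have ht2 : 0 < t ^ 2 := by have := ht.1; positivity
    rcases le_total v0 v with h | h
    · have hkn : 0 ≤ ker δ t := by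
        rw [hk, hq]
        have : 0 ≤ (v ^ 2 + 4 * δ ^ 2 * v) - M := by
          rw [← hv0eq]
          have : v0 ^ 2 ≤ v ^ 2 := pow_le_pow_left₀ hv0pos.le h 2
          have : 4 * δ ^ 2 * v0 ≤ 4 * δ ^ 2 * v := by gcongr
          linarith
        positivity
      have hw : v0 ^ α ≤ v ^ α := Real.rpow_le_rpow hv0pos.le h h0.le
      rw [mul_comm]
      gcongr
    · have hkn : ker δ t ≤ 0 := by
        rw [hk, hq]
        have : (v ^ 2 + 4 * δ ^ 2 * v) - M ≤ 0 := by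
          rw [← hv0eq]
          have : v ^ 2 ≤ v0 ^ 2 := pow_le_pow_left₀ hvpos.le h 2
          have : 4 * δ ^ 2 * v ≤ 4 * δ ^ 2 * v0 := by gcongr
          linarith
        apply mul_nonpos_of_nonneg_of_nonpos hs.le
        apply mul_nonpos_of_nonneg_of_nonpos (by positivity) this
      have hw : v ^ α ≤ v0 ^ α := Real.rpow_le_rpow hvpos.le h h0.le
      nlinarith

lemma ker_continuousOn {δ : ℝ} (hδ : 0 < δ) : ContinuousOn (ker δ) (Set.uIcc 0 1) := by
  rw [Set.uIcc_of_le (by norm_num)]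
  unfold ker
  apply ContinuousOn.sub
  · apply ContinuousOn.sub
    · apply ContinuousOn.div continuousOn_const (by fun_prop)
      intro t ht; have := ht.1; positivity
    · apply ContinuousOn.div continuousOn_const (by fun_prop)
      intro t ht; exact (N_pos hδ ht.1 ht.2).ne'
  · apply ContinuousOn.sub
    · apply ContinuousOn.div continuousOn_const (D_continuous δ).continuousOn
      intro t ht; exact (D_pos hδ ht.1).ne'
    · apply ContinuousOn.div continuousOn_const (by fun_prop)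
      intro t ht; have := ht.1; positivity

lemma ker_int_nonneg {δ : ℝ} (hδ : 0 < δ) (hδ1 : δ < 1) : 0 ≤ ∫ t in (0 : ℝ)..1, ker δ t := by
  set c : ℝ := 2 * δ ^ 2 - 1 with hc
  set K : ℝ → ℝ := fun t => 2 * Real.log (1 + t) - Real.log (1 + (2 * δ - 1) * t)
    - Real.log (t + c + D δ t) with hK
  have hpos : ∀ t, 0 ≤ t → 0 < t + c + D δ t := by
    intro t ht
    have h1 := D_pos hδ ht
    have h2 := D_sq hδ ht
    have h3 : (t + c) ^ 2 < D δ t ^ 2 := by
      rw [h2, hc]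
      have h4 : 0 < δ ^ 2 * (1 - δ ^ 2) := by
        have : δ ^ 2 < 1 := by nlinarith
        have : 0 < 1 - δ ^ 2 := by linarith
        positivity
      nlinarith
    have h5 := abs_lt_of_sq_lt_sq h3 h1.le
    have h6 := (abs_lt.mp h5).1
    linarith
  have hderiv : ∀ t ∈ Set.uIcc (0 : ℝ) 1, HasDerivAt K (ker δ t) t := by
    intro t ht
    rw [Set.uIcc_of_le (by norm_num)] at ht
    have hN := N_pos hδ ht.1 ht.2
    have hD := D_pos hδ ht.1
    have hD2 := D_sq hδ ht.1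
    have hp := hpos t ht.1
    have ht1 : 0 < 1 + t := by linarith [ht.1]
    have d1 : HasDerivAt (fun t : ℝ => 2 * Real.log (1 + t)) (2 * (1 / (1 + t))) t :=
      (((hasDerivAt_id t).const_add 1).log ht1.ne').const_mul 2
    have d2 : HasDerivAt (fun t : ℝ => Real.log (1 + (2 * δ - 1) * t))
        ((2 * δ - 1) / (1 + (2 * δ - 1) * t)) t := by
      have := (((hasDerivAt_id t).const_mul (2 * δ - 1)).const_add 1).log hN.ne'
      simpa using this
    have d3 : HasDerivAt (D δ) ((t + c) / D δ t) t := by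
      have e1 : HasDerivAt (fun t : ℝ => (1 - t) ^ 2 + 4 * t * δ ^ 2)
          (2 * (t + c)) t := by
        have a1 : HasDerivAt (fun t : ℝ => (1 - t) ^ 2) (2 * (1 - t) * (-1)) t := by
          have := ((hasDerivAt_id t).const_sub 1).pow 2
          refine this.congr_deriv ?_
          simp
        have a2 : HasDerivAt (fun t : ℝ => 4 * t * δ ^ 2) (4 * δ ^ 2) t := by
          have := ((hasDerivAt_id t).const_mul 4).mul_const (δ ^ 2)
          refine this.congr_deriv ?_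
          simp
        refine (a1.add a2).congr_deriv ?_
        rw [hc]; ring
      have := e1.sqrt (D_arg_pos hδ ht.1).ne'
      refine this.congr_deriv ?_
      change 2 * (t + c) / (2 * D δ t) = (t + c) / D δ t
      rw [mul_div_mul_left _ _ (by norm_num)]
    have d4 : HasDerivAt (fun t : ℝ => Real.log (t + c + D δ t)) (1 / D δ t) t := by
      have := (((hasDerivAt_id t).add_const c).add d3).log hp.ne'
      refine this.congr_deriv ?_
      change (1 + (t + c) / D δ t) / (t + c + D δ t) = 1 / D δ t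
      rw [div_eq_div_iff hp.ne' hD.ne']
      field_simp
      ring
    refine ((d1.sub d2).sub d4).congr_deriv ?_
    unfold ker
    ring
  have hint : IntervalIntegrable (ker δ) volume 0 1 := (ker_continuousOn hδ).intervalIntegrable
  rw [integral_eq_sub_of_hasDerivAt hderiv hint]
  have hD1 : D δ 1 = 2 * δ := by
    unfold D
    rw [show (1 - 1 : ℝ) ^ 2 + 4 * 1 * δ ^ 2 = (2 * δ) ^ 2 by ring, Real.sqrt_sq (by linarith)]
  have hD0 : D δ 0 = 1 := by unfold D; norm_num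
  simp only [hK]
  rw [hD1, hD0]
  have e1 : (1 : ℝ) + c + 2 * δ = (2 * δ) * (1 + δ) := by rw [hc]; ring
  have e2 : (0 : ℝ) + c + 1 = 2 * δ * δ := by rw [hc]; ring
  have e3 : (1 : ℝ) + (2 * δ - 1) * 1 = 2 * δ := by ring
  rw [e1, e2, e3]
  have h2δ : (2 * δ) ≠ 0 := by positivity
  rw [Real.log_mul h2δ (by positivity), Real.log_mul h2δ hδ.ne', Real.log_mul (by norm_num) hδ.ne']
  have h5 : Real.log (1 + δ) ≤ Real.log 2 := Real.log_le_log (by positivity) (by linarith)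
  norm_num
  linarith

lemma ker_w_nonneg {α δ : ℝ} (h0 : 0 < α) (h1 : α < 1) (hδ : 0 < δ) (hδ1 : δ < 1) :
    0 ≤ ∫ t in (0 : ℝ)..1, ker δ t * w α t := by
  obtain ⟨ρ, hρ, h⟩ := crossing h0 hδ hδ1
  have h2 := ker_int_nonneg hδ hδ1
  have h3 : ∫ t in (0 : ℝ)..1, ρ * ker δ t ≤ ∫ t in (0 : ℝ)..1, ker δ t * w α t := by
    apply integral_mono_on_of_le_Ioo (by norm_num)
    · exact ((ker_continuousOn hδ).intervalIntegrable).const_mul _
    · exact w_mul_integrable h0 h1 (ker_continuousOn hδ)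
    · exact h
  rw [intervalIntegral.integral_const_mul] at h3
  exact (mul_nonneg hρ h2).trans h3

end Pool.Agent.Lib.P761a8f
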