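import Pool.Agent.Lib.P761a8f.Key

set_option autoImplicit false

open Finset Filter Topology MeasureTheory intervalIntegral

namespace Pool.Agent.Lib.P761a8f

lemma real_pow_int {α : ℝ} (h0 : 0 < α) (h1 : α < 1) {y : ℝ} (hy : -1 < y) (hy1 : y ≤ 1) :
    (1 + y) ^ α = 1 + C α * y * ∫ t in (0 : ℝ)..1, (1 / (1 + y * t)) * w α t := by
  have hx : ‖(y : ℂ)‖ ≤ 1 := by
    rw [Complex.norm_real, Real.norm_eq_abs, abs_le]
    exact ⟨hy.le, hy1⟩
  have hx1 : (y : ℂ) ≠ -1 := by
    intro h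
    have : y = -1 := by exact_mod_cast h
    linarith
  have h := cpow_int h0 h1 hx hx1
  have e1 : (1 + (y : ℂ)) ^ (α : ℂ) = (((1 + y) ^ α : ℝ) : ℂ) := by
    rw [Complex.ofReal_cpow (by linarith)]
    push_cast
    rfl
  have e2 : ∫ t in (0 : ℝ)..1, (1 / (1 + (y : ℂ) * t)) * ((w α t : ℝ) : ℂ)
      = ((∫ t in (0 : ℝ)..1, (1 / (1 + y * t)) * w α t : ℝ) : ℂ) := by
    rw [← intervalIntegral.integral_ofReal]
    congr 1
    ext t
    push_cast
    rfl
  rw [e1, e2] at h
  exact_mod_cast h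

lemma A_one (α : ℝ) (m : ℕ) : A α m 1 = ((A1 α m : ℝ) : ℂ) := by
  unfold A A1
  push_cast
  simp

lemma A1_odd {α : ℝ} (h0 : 0 < α) (h1 : α < 1) {m : ℕ} (hm : Odd m) :
    A1 α m = 2 ^ α + C α * ∫ t in (0 : ℝ)..1, (t ^ m * (1 / (1 + t))) * w α t := by
  have h := A_odd h0 h1 (x := 1) (by simp) (by norm_num) hm
  rw [A_one] at h
  have e1 : (1 + (1 : ℂ)) ^ (α : ℂ) = (((2 : ℝ) ^ α : ℝ) : ℂ) := by
    rw [Complex.ofReal_cpow (by norm_num)]
    norm_num
  have e2 : ∫ t in (0 : ℝ)..1, ((t : ℂ) ^ m * (1 / (1 + 1 * (t : ℂ)))) * ((w α t : ℝ) : ℂ)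
      = ((∫ t in (0 : ℝ)..1, (t ^ m * (1 / (1 + t))) * w α t : ℝ) : ℂ) := by
    rw [← intervalIntegral.integral_ofReal]
    congr 1
    ext t
    push_cast
    rw [one_mul]
  rw [e1, e2, one_pow, mul_one] at h
  exact_mod_cast h

lemma cont1 (m : ℕ) : ContinuousOn (fun t : ℝ => t ^ m * (1 / (1 + t))) (Set.uIcc 0 1) := by
  rw [Set.uIcc_of_le (by norm_num)]
  apply ContinuousOn.mul (by fun_prop)
  apply ContinuousOn.div continuousOn_const (by fun_prop)
  intro t ht; have := ht.1; positivity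

lemma contD {δ : ℝ} (hδ : 0 < δ) (m : ℕ) :
    ContinuousOn (fun t : ℝ => t ^ m * (1 / D δ t)) (Set.uIcc 0 1) := by
  rw [Set.uIcc_of_le (by norm_num)]
  apply ContinuousOn.mul (by fun_prop)
  apply ContinuousOn.div continuousOn_const (D_continuous δ).continuousOn
  intro t ht; exact (D_pos hδ ht.1).ne'

lemma contN {δ : ℝ} (hδ : 0 < δ) :
    ContinuousOn (fun t : ℝ => 1 / (1 + (2 * δ - 1) * t)) (Set.uIcc 0 1) := by
  rw [Set.uIcc_of_le (by norm_num)]
  apply ContinuousOn.div continuousOn_const (by fun_prop)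
  intro t ht; exact (N_pos hδ ht.1 ht.2).ne'

lemma cont1' : ContinuousOn (fun t : ℝ => 1 / (1 + t)) (Set.uIcc 0 1) := by
  rw [Set.uIcc_of_le (by norm_num)]
  apply ContinuousOn.div continuousOn_const (by fun_prop)
  intro t ht; have := ht.1; positivity

lemma A1_ge_one {α : ℝ} (h0 : 0 < α) (h1 : α < 1) {m : ℕ} (hm : Odd m) : 1 ≤ A1 α m := by
  rw [A1_odd h0 h1 hm]
  have h2 : (1 : ℝ) ≤ 2 ^ α := Real.one_le_rpow (by norm_num) h0.le
  have h3 : 0 ≤ ∫ t in (0 : ℝ)..1, (t ^ m * (1 / (1 + t))) * w α t := by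
    apply intervalIntegral.integral_nonneg (by norm_num)
    intro t ht
    have := w_nonneg (α := α) ht.1 ht.2
    have := ht.1
    positivity
  have := C_pos h0 h1
  nlinarith [mul_nonneg this.le h3]

lemma norm_one_add_mul {x : ℂ} (hx : ‖x‖ = 1) {t : ℝ} :
    ‖1 + x * t‖ = D (‖1 + x‖ / 2) t := by
  have hx2 : x.re ^ 2 + x.im ^ 2 = 1 := by
    have := Complex.sq_norm x
    rw [hx, Complex.normSq_apply] at this
    nlinarith
  have e1 : ‖1 + x‖ ^ 2 = 2 + 2 * x.re := by
    rw [Complex.sq_norm, Complex.normSq_apply]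
    simp only [Complex.add_re, Complex.one_re, Complex.add_im, Complex.one_im, zero_add]
    linear_combination hx2
  have e2 : ‖1 + x * t‖ ^ 2 = (1 - t) ^ 2 + 4 * t * (‖1 + x‖ / 2) ^ 2 := by
    rw [div_pow, e1, Complex.sq_norm, Complex.normSq_apply]
    simp only [Complex.add_re, Complex.one_re, Complex.mul_re, Complex.ofReal_re,
      Complex.ofReal_im, mul_zero, sub_zero, Complex.add_im, Complex.one_im, Complex.mul_im,
      zero_add]
    linear_combination t ^ 2 * hx2
  unfold D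
  rw [← e2, Real.sqrt_sq (norm_nonneg _)]

lemma main_lt_one {α : ℝ} (h0 : 0 < α) (h1 : α < 1) {m : ℕ} (hm : Odd m) {x : ℂ}
    (hx : ‖x‖ = 1) : ‖A α m x‖ ≤ A1 α m := by
  by_cases hx1 : x = 1
  · rw [hx1, A_one, Complex.norm_real, Real.norm_eq_abs, abs_of_nonneg]
    linarith [A1_ge_one h0 h1 hm]
  by_cases hxm : x = -1
  · have e : A α m x = ((1 - ∑ k ∈ range m, c α k : ℝ) : ℂ) := by
      rw [hxm]
      unfold A
      rw [sum_range_succ', b_zero]
      push_cast
      have : ∑ k ∈ range m, ((b α (k + 1) : ℝ) : ℂ) * (-1) ^ (k + 1)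
          = -∑ k ∈ range m, ((c α k : ℝ) : ℂ) := by
        rw [← sum_neg_distrib]
        apply sum_congr rfl
        intro k _
        rw [b_eq_c]
        push_cast
        have h3 : ((-1 : ℂ) ^ k) * (-1) ^ k = 1 := by rw [← mul_pow]; simp
        linear_combination (-((c α k : ℝ) : ℂ)) * h3
      rw [this]
      ring
    rw [e, Complex.norm_real, Real.norm_eq_abs, abs_of_nonneg]
    · have := A1_ge_one h0 h1 hm
      have h3 : 0 ≤ ∑ k ∈ range m, c α k := sum_nonneg (fun k _ => (c_pos h0 h1 k).le)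
      linarith
    · have := sum_c_le h0 h1 m
      linarith
  -- main case
  set δ : ℝ := ‖1 + x‖ / 2 with hδdef
  have hδ : 0 < δ := by
    have : 1 + x ≠ 0 := by
      intro h; apply hxm; linear_combination h
    have := norm_pos_iff.mpr this
    positivity
  have hx2 : x.re ^ 2 + x.im ^ 2 = 1 := by
    have := Complex.sq_norm x
    rw [hx, Complex.normSq_apply] at this
    nlinarith
  have e1 : ‖1 + x‖ ^ 2 = 2 + 2 * x.re := by
    rw [Complex.sq_norm, Complex.normSq_apply]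
    simp only [Complex.add_re, Complex.one_re, Complex.add_im, Complex.one_im, zero_add]
    linear_combination hx2
  have hre : x.re < 1 := by
    apply lt_of_le_of_ne (re_le_one hx)
    intro h
    apply hx1
    rw [h] at hx2
    have him : x.im = 0 := by nlinarith [sq_nonneg x.im]
    apply Complex.ext <;> simp [h, him]
  have hδ1 : δ < 1 := by
    have : ‖1 + x‖ ^ 2 < 2 ^ 2 := by rw [e1]; linarith
    have h3 := abs_lt_of_sq_lt_sq this (by norm_num)
    rw [abs_of_nonneg (norm_nonneg _)] at h3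
    rw [hδdef]; linarith
  have hCpos := C_pos h0 h1
  -- upper bound
  have hA : ‖A α m x‖ ≤ (2 * δ) ^ α + C α * ∫ t in (0 : ℝ)..1, (t ^ m * (1 / D δ t)) * w α t := by
    rw [A_odd h0 h1 hx.le hxm hm]
    calc _ ≤ ‖(1 + x) ^ (α : ℂ)‖ + ‖(C α : ℂ) * x ^ (m + 1) * ∫ t in (0 : ℝ)..1,
          ((t : ℂ) ^ m * (1 / (1 + x * t))) * ((w α t : ℝ) : ℂ)‖ := norm_add_le _ _
      _ ≤ (2 * δ) ^ α + C α * ∫ t in (0 : ℝ)..1, (t ^ m * (1 / D δ t)) * w α t := by
        apply add_le_add
        · rw [Complex.norm_cpow_real]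
          rw [show 2 * δ = ‖1 + x‖ by rw [hδdef]; ring]
        · rw [norm_mul, norm_mul, norm_pow, hx, one_pow, mul_one, Complex.norm_real,
            Real.norm_eq_abs, abs_of_pos hCpos]
          apply mul_le_mul_of_nonneg_left _ hCpos.le
          apply (intervalIntegral.norm_integral_le_integral_norm (by norm_num)).trans
          apply le_of_eq
          apply intervalIntegral.integral_congr
          intro t ht
          rw [Set.uIcc_of_le (by norm_num)] at ht
          simp only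
          rw [norm_mul, norm_mul, norm_div, norm_one, norm_pow, Complex.norm_real,
            Complex.norm_real, Real.norm_eq_abs, Real.norm_eq_abs, abs_of_nonneg ht.1,
            abs_of_nonneg (w_nonneg ht.1 ht.2), norm_one_add_mul hx]
  -- value at one
  have hA1 := A1_odd h0 h1 hm
  have p2 := real_pow_int h0 h1 (y := 1) (by norm_num) le_rfl
  have pδ := real_pow_int h0 h1 (y := 2 * δ - 1) (by linarith) (by linarith)
  have hker := ker_w_nonneg h0 h1 hδ hδ1
  -- split the kernel integral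
  have i1 := w_mul_integrable h0 h1 cont1'
  have iN := w_mul_integrable h0 h1 (contN hδ)
  have iDm := w_mul_integrable h0 h1 (contD hδ m)
  have i1m := w_mul_integrable h0 h1 (cont1 m)
  have hkerle : ∫ t in (0 : ℝ)..1, ker δ t * w α t ≤ ∫ t in (0 : ℝ)..1,
      (((1 / (1 + t)) * w α t - (2 * δ - 1) * ((1 / (1 + (2 * δ - 1) * t)) * w α t))
        - ((t ^ m * (1 / D δ t)) * w α t - (t ^ m * (1 / (1 + t))) * w α t)) := by
    apply intervalIntegral.integral_mono_on (by norm_num)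
      (w_mul_integrable h0 h1 (ker_continuousOn hδ))
      ((i1.sub (iN.const_mul _)).sub (iDm.sub i1m))
    intro t ht
    have hw := w_nonneg (α := α) ht.1 ht.2
    have hD := D_pos hδ ht.1
    have hD2 := D_sq hδ ht.1
    have h1t : 0 < 1 + t := by linarith [ht.1]
    have hDle : D δ t ≤ 1 + t := by
      apply le_of_sq_le_sq _ h1t.le
      rw [hD2]
      have : δ ^ 2 ≤ 1 := by nlinarith
      nlinarith [ht.1, mul_le_mul_of_nonneg_left this ht.1]
    have h5 : 0 ≤ 1 / D δ t - 1 / (1 + t) := by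
      have := one_div_le_one_div_of_le hD hDle
      linarith
    have h6 : t ^ m ≤ 1 := pow_le_one₀ ht.1 ht.2
    have h7 : t ^ m * (1 / D δ t - 1 / (1 + t)) ≤ 1 / D δ t - 1 / (1 + t) := by
      calc _ ≤ 1 * (1 / D δ t - 1 / (1 + t)) := mul_le_mul_of_nonneg_right h6 h5
        _ = _ := one_mul _
    have h8 := mul_le_mul_of_nonneg_right h7 hw
    have h9 : (2 * δ - 1) / (1 + (2 * δ - 1) * t) = (2 * δ - 1) * (1 / (1 + (2 * δ - 1) * t)) := by
      ring
    unfold ker
    rw [h9]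
    linarith
  rw [intervalIntegral.integral_sub (i1.sub (iN.const_mul _)) (iDm.sub i1m),
    intervalIntegral.integral_sub i1 (iN.const_mul _), intervalIntegral.integral_sub iDm i1m,
    intervalIntegral.integral_const_mul] at hkerle
  set I1 := ∫ t in (0 : ℝ)..1, (1 / (1 + t)) * w α t with hI1
  set IN := ∫ t in (0 : ℝ)..1, (1 / (1 + (2 * δ - 1) * t)) * w α t with hIN
  set ID := ∫ t in (0 : ℝ)..1, (t ^ m * (1 / D δ t)) * w α t with hID
  set Im := ∫ t in (0 : ℝ)..1, (t ^ m * (1 / (1 + t))) * w α t with hIm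
  have p2' : (2 : ℝ) ^ α = 1 + C α * I1 := by
    have e : ∫ t in (0 : ℝ)..1, (1 / (1 + 1 * t)) * w α t = I1 := by
      rw [hI1]
      congr 1
      ext t
      rw [one_mul]
    rw [e] at p2
    norm_num at p2
    exact p2
  have pδ' : (2 * δ) ^ α = 1 + C α * (2 * δ - 1) * IN := by
    have : 1 + (2 * δ - 1) = 2 * δ := by ring
    rw [this] at pδ
    exact pδ
  have hfin : 0 ≤ (I1 - (2 * δ - 1) * IN) - (ID - Im) := hker.trans hkerle
  have := mul_nonneg hCpos.le hfin
  rw [hA1]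
  linarith

theorem main (α : ℝ) (h0 : 0 < α) (m : ℕ) (hm : Odd m) (x : ℂ) (hx : ‖x‖ = 1) :
    ‖A α m x‖ ≤ A1 α m := by
  rcases lt_or_ge α 1 with h | h
  · exact main_lt_one h0 h hm hx
  · exact P_ge_one h m x hx

end Pool.Agent.Lib.P761a8f
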