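import Pool.Agent.Lib.P761a8f.Series

set_option autoImplicit false

open Finset Filter Topology MeasureTheory intervalIntegral

namespace Pool.Agent.Lib.P761a8f

/-- the weight -/
noncomputable def w (α t : ℝ) : ℝ := t ^ (-α) * (1 - t) ^ α

lemma w_nonneg {α t : ℝ} (h0 : 0 ≤ t) (h1 : t ≤ 1) : 0 ≤ w α t :=
  mul_nonneg (Real.rpow_nonneg h0 _) (Real.rpow_nonneg (by linarith) _)

lemma w_intervalIntegrable {α : ℝ} (h0 : 0 < α) (h1 : α < 1) :
    IntervalIntegrable (w α) volume 0 1 := by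
  apply IntervalIntegrable.mul_continuousOn
  · exact intervalIntegrable_rpow' (by linarith)
  · apply Continuous.continuousOn
    apply Continuous.rpow_const (by fun_prop)
    intro x
    right; exact h0.le

lemma w_mul_integrable {α : ℝ} (h0 : 0 < α) (h1 : α < 1) {g : ℝ → ℝ}
    (hg : ContinuousOn g (Set.uIcc 0 1)) :
    IntervalIntegrable (fun t => g t * w α t) volume 0 1 :=
  (w_intervalIntegrable h0 h1).continuousOn_mul hg

lemma w_cmul_integrable {α : ℝ} (h0 : 0 < α) (h1 : α < 1) {g : ℝ → ℂ}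
    (hg : ContinuousOn g (Set.uIcc 0 1)) :
    IntervalIntegrable (fun t => g t * ((w α t : ℝ) : ℂ)) volume 0 1 := by
  have h := (w_intervalIntegrable h0 h1)
  have h2 : IntervalIntegrable (fun t => ((w α t : ℝ) : ℂ)) volume 0 1 := by
    rw [intervalIntegrable_iff] at h ⊢
    exact h.ofReal
  exact h2.continuousOn_mul hg

/-- moments -/
noncomputable def J (α : ℝ) (k : ℕ) : ℝ := ∫ t in (0 : ℝ)..1, t ^ k * w α t

lemma J_rec {α : ℝ} (h0 : 0 < α) (h1 : α < 1) (k : ℕ) :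
    (k + 1 - α) * J α k = (k + 2) * J α (k + 1) := by
  have hk : (0 : ℝ) ≤ k := Nat.cast_nonneg k
  set F : ℝ → ℝ := fun t => t ^ ((k : ℝ) + 1 - α) * (1 - t) ^ (1 + α) with hF
  set F' : ℝ → ℝ := fun t => ((k + 1 - α) * t ^ k - (k + 2) * t ^ (k + 1)) * w α t with hF'
  have hcont : ContinuousOn F (Set.Icc 0 1) := by
    apply Continuous.continuousOn
    apply Continuous.mul
    · apply Continuous.rpow_const (by fun_prop)
      intro x; right; linarith
    · apply Continuous.rpow_const (by fun_prop)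
      intro x; right; linarith
  have hderiv : ∀ t ∈ Set.Ioo (0 : ℝ) 1, HasDerivAt F (F' t) t := by
    intro t ht
    have ht0 : t ≠ 0 := ht.1.ne'
    have ht1 : 1 - t ≠ 0 := by linarith [ht.2]
    have d1 : HasDerivAt (fun t : ℝ => t ^ ((k : ℝ) + 1 - α))
        (((k : ℝ) + 1 - α) * t ^ ((k : ℝ) + 1 - α - 1)) t :=
      Real.hasDerivAt_rpow_const (Or.inl ht0)
    have d2 : HasDerivAt (fun t : ℝ => (1 - t) ^ (1 + α)) (-(1 + α) * (1 - t) ^ (1 + α - 1)) t := by
      have := ((hasDerivAt_id t).const_sub 1).rpow_const (p := 1 + α) (Or.inl ht1)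
      refine this.congr_deriv ?_
      simp
    have d3 : HasDerivAt F _ t := d1.mul d2
    refine d3.congr_deriv ?_
    simp only [hF', w]
    have e1 : t ^ ((k : ℝ) + 1 - α - 1) = t ^ k * t ^ (-α) := by
      rw [show (k : ℝ) + 1 - α - 1 = k + -α by ring, Real.rpow_add ht.1, Real.rpow_natCast]
    have e2 : t ^ ((k : ℝ) + 1 - α) = t ^ k * t * t ^ (-α) := by
      rw [show (k : ℝ) + 1 - α = k + 1 + -α by ring, Real.rpow_add ht.1, Real.rpow_add ht.1,
        Real.rpow_natCast, Real.rpow_one]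
    have e3 : (1 - t) ^ (1 + α - 1) = (1 - t) ^ α := by
      congr 1; ring
    have e4 : (1 - t) ^ (1 + α) = (1 - t) * (1 - t) ^ α := by
      rw [Real.rpow_add (by linarith [ht.2]), Real.rpow_one]
    rw [e1, e2, e3, e4]
    ring
  have hint : IntervalIntegrable F' volume 0 1 := by
    apply w_mul_integrable h0 h1
    fun_prop
  have h := integral_eq_sub_of_hasDerivAt_of_le (by norm_num) hcont hderiv hint
  have hF1 : F 1 = 0 := by
    simp only [hF]
    rw [sub_self, Real.zero_rpow (by linarith), mul_zero]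
  have hF0 : F 0 = 0 := by
    simp only [hF]
    rw [Real.zero_rpow (by linarith), zero_mul]
  rw [hF1, hF0, sub_self] at h
  have e : F' = fun t => (k + 1 - α) * (t ^ k * w α t) - (k + 2) * (t ^ (k + 1) * w α t) := by
    funext t; simp only [hF']; ring
  rw [e, intervalIntegral.integral_sub, intervalIntegral.integral_const_mul,
    intervalIntegral.integral_const_mul] at h
  · unfold J; linarith
  · exact (w_mul_integrable h0 h1 (by fun_prop)).const_mul _
  · exact (w_mul_integrable h0 h1 (by fun_prop)).const_mul _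

lemma J_zero_pos {α : ℝ} (h0 : 0 < α) (h1 : α < 1) : 0 < J α 0 := by
  unfold J
  simp only [pow_zero, one_mul]
  apply intervalIntegral_pos_of_pos_on (w_intervalIntegrable h0 h1) _ (by norm_num)
  intro t ht
  exact mul_pos (Real.rpow_pos_of_pos ht.1 _) (Real.rpow_pos_of_pos (by linarith [ht.2]) _)

/-- the normalising constant -/
noncomputable def C (α : ℝ) : ℝ := α / J α 0

lemma C_pos {α : ℝ} (h0 : 0 < α) (h1 : α < 1) : 0 < C α := div_pos h0 (J_zero_pos h0 h1)

lemma moment {α : ℝ} (h0 : 0 < α) (h1 : α < 1) (k : ℕ) : c α k = C α * J α k := by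
  induction k with
  | zero =>
    rw [c_zero, C, div_mul_cancel₀ _ (J_zero_pos h0 h1).ne']
  | succ k ih =>
    rw [c_succ, ih]
    have h := J_rec h0 h1 k
    have h4 : (k : ℝ) + 2 ≠ 0 := by positivity
    field_simp
    linear_combination C α * h

lemma A_int {α : ℝ} (h0 : 0 < α) (h1 : α < 1) (m : ℕ) {x : ℂ}
    (hx : ∀ t ∈ Set.Icc (0 : ℝ) 1, 1 + x * t ≠ 0) :
    A α m x = 1 + C α * x * ∫ t in (0 : ℝ)..1, (1 - (-(x * t)) ^ m) / (1 + x * t) *
      ((w α t : ℝ) : ℂ) := by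
  have e1 : A α m x = 1 + ∑ k ∈ range m, ((c α k : ℝ) : ℂ) * ((-1) ^ k * x ^ (k + 1)) := by
    unfold A
    rw [sum_range_succ', b_zero, add_comm]
    simp only [Complex.ofReal_one, pow_zero, mul_one]
    congr 1
    apply sum_congr rfl
    intro k _
    rw [b_eq_c]
    push_cast
    ring
  have e2 : ∀ k, ((c α k : ℝ) : ℂ) = C α * ∫ t in (0 : ℝ)..1, (t : ℂ) ^ k * ((w α t : ℝ) : ℂ) := by
    intro k
    rw [moment h0 h1]
    unfold J
    push_cast
    congr 1
    rw [← intervalIntegral.integral_ofReal]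
    congr 1
    ext t
    push_cast
    ring
  rw [e1]
  congr 1
  simp_rw [e2]
  have e3 : ∀ k ∈ range m, (C α : ℂ) * (∫ t in (0 : ℝ)..1, (t : ℂ) ^ k * ((w α t : ℝ) : ℂ)) *
      ((-1) ^ k * x ^ (k + 1)) = C α * x * ∫ t in (0 : ℝ)..1, (-(x * t)) ^ k * ((w α t : ℝ) : ℂ) := by
    intro k _
    have : ∫ t in (0 : ℝ)..1, (-(x * t)) ^ k * ((w α t : ℝ) : ℂ)
        = ((-1) ^ k * x ^ k) * ∫ t in (0 : ℝ)..1, (t : ℂ) ^ k * ((w α t : ℝ) : ℂ) := by
      rw [← intervalIntegral.integral_const_mul]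
      congr 1
      ext t
      rw [neg_pow, mul_pow]
      ring
    rw [this]
    ring
  rw [sum_congr rfl e3, ← mul_sum, ← intervalIntegral.integral_finsetSum]
  · congr 1
    apply intervalIntegral.integral_congr
    intro t ht
    rw [Set.uIcc_of_le (by norm_num)] at ht
    simp only
    rw [← sum_mul]
    congr 1
    have h2 := hx t ht
    have h3 : -(x * t) ≠ 1 := by
      intro h
      apply h2
      rw [← h]; ring
    rw [geom_sum_eq h3]
    have h4 : -(x * t) - 1 ≠ 0 := sub_ne_zero.mpr h3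
    rw [div_eq_div_iff h4 h2]
    ring
  · intro k _
    exact w_cmul_integrable h0 h1 (by fun_prop)

lemma one_add_ne {x : ℂ} (hx : ‖x‖ ≤ 1) (hx1 : x ≠ -1) :
    ∀ t ∈ Set.Icc (0 : ℝ) 1, 1 + x * t ≠ 0 := by
  intro t ht h
  have h1 : x * t = -1 := by linear_combination h
  have h2 : ‖x‖ * t = 1 := by
    have := congrArg norm h1
    rw [norm_mul, Complex.norm_real, Real.norm_eq_abs, abs_of_nonneg ht.1] at this
    simpa using this
  have h3 : t = 1 := by
    apply le_antisymm ht.2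
    rw [← h2]
    calc ‖x‖ * t ≤ 1 * t := by apply mul_le_mul_of_nonneg_right hx ht.1
      _ = t := one_mul t
  rw [h3] at h1
  simp at h1
  exact hx1 h1

lemma cont_inv {x : ℂ} (hx : ‖x‖ ≤ 1) (hx1 : x ≠ -1) :
    ContinuousOn (fun t : ℝ => (1 : ℂ) / (1 + x * t)) (Set.uIcc 0 1) := by
  rw [Set.uIcc_of_le (by norm_num)]
  apply ContinuousOn.div continuousOn_const (by fun_prop)
  intro t ht
  exact one_add_ne hx hx1 t ht

/-- tail integral tends to zero -/
lemma tail_tendsto {α : ℝ} (h0 : 0 < α) (h1 : α < 1) {x : ℂ} (hx : ‖x‖ ≤ 1) (hx1 : x ≠ -1) :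
    Tendsto (fun N : ℕ => ∫ t in (0 : ℝ)..1, (-(x * t)) ^ N * (1 / (1 + x * t)) *
      ((w α t : ℝ) : ℂ)) atTop (𝓝 0) := by
  have hz : (0 : ℂ) = ∫ t in (0 : ℝ)..1, (0 : ℂ) := by simp
  rw [hz]
  apply intervalIntegral.tendsto_integral_filter_of_dominated_convergence
    (fun t => ‖(1 / (1 + x * t)) * ((w α t : ℝ) : ℂ)‖)
  · refine Eventually.of_forall (fun N => ?_)
    have : IntervalIntegrable (fun t : ℝ => (-(x * t)) ^ N * (1 / (1 + x * t)) *
      ((w α t : ℝ) : ℂ)) volume 0 1 :=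
      w_cmul_integrable h0 h1 (ContinuousOn.mul (by fun_prop) (cont_inv hx hx1))
    exact this.def'.aestronglyMeasurable
  · refine Eventually.of_forall (fun N => ?_)
    refine Eventually.of_forall (fun t ht => ?_)
    rw [Set.uIoc_of_le (by norm_num)] at ht
    rw [mul_assoc, norm_mul, norm_pow, norm_neg, norm_mul x, Complex.norm_real, Real.norm_eq_abs,
      abs_of_pos ht.1]
    have h2 : ‖x‖ * t ≤ 1 := by
      calc ‖x‖ * t ≤ 1 * 1 := mul_le_mul hx ht.2 ht.1.le (by norm_num)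
        _ = 1 := one_mul 1
    have h3 : (‖x‖ * t) ^ N ≤ 1 := pow_le_one₀ (mul_nonneg (norm_nonneg _) ht.1.le) h2
    calc _ ≤ 1 * ‖1 / (1 + x * (t : ℂ)) * ((w α t : ℝ) : ℂ)‖ := by gcongr
      _ = _ := one_mul _
  · exact (w_cmul_integrable h0 h1 (cont_inv hx hx1)).norm
  · have hne : ∀ᵐ t : ℝ ∂volume, t ≠ 1 := by
      simp [ae_iff]
    filter_upwards [hne] with t ht1 ht
    rw [Set.uIoc_of_le (by norm_num)] at ht
    have ht2 : t < 1 := lt_of_le_of_ne ht.2 ht1
    have h2 : ‖-(x * (t : ℂ))‖ < 1 := by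
      rw [norm_neg, norm_mul, Complex.norm_real, Real.norm_eq_abs, abs_of_pos ht.1]
      calc ‖x‖ * t ≤ 1 * t := mul_le_mul_of_nonneg_right hx ht.1.le
        _ < 1 := by linarith
    have h3 := tendsto_pow_atTop_nhds_zero_of_norm_lt_one h2
    have h4 := (h3.mul_const (1 / (1 + x * (t : ℂ)))).mul_const ((w α t : ℝ) : ℂ)
    simpa using h4

/-- the integral representation of the power function -/
lemma cpow_int {α : ℝ} (h0 : 0 < α) (h1 : α < 1) {x : ℂ} (hx : ‖x‖ ≤ 1) (hx1 : x ≠ -1) :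
    (1 + x) ^ (α : ℂ) = 1 + C α * x * ∫ t in (0 : ℝ)..1, (1 / (1 + x * t)) *
      ((w α t : ℝ) : ℂ) := by
  have l1 := tendsto_A h0 h1 hx hx1
  have l2 : Tendsto (fun n => A α n x) atTop (𝓝 (1 + C α * x * ((∫ t in (0 : ℝ)..1,
      (1 / (1 + x * t)) * ((w α t : ℝ) : ℂ)) - 0))) := by
    have e : ∀ n, A α n x = 1 + C α * x * ((∫ t in (0 : ℝ)..1,
        (1 / (1 + x * t)) * ((w α t : ℝ) : ℂ)) - ∫ t in (0 : ℝ)..1, (-(x * t)) ^ n *
        (1 / (1 + x * t)) * ((w α t : ℝ) : ℂ)) := by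
      intro n
      rw [A_int h0 h1 n (one_add_ne hx hx1), ← intervalIntegral.integral_sub]
      · congr 2
        congr 1
        ext t
        ring
      · exact w_cmul_integrable h0 h1 (cont_inv hx hx1)
      · exact w_cmul_integrable h0 h1 (ContinuousOn.mul (by fun_prop) (cont_inv hx hx1))
    simp_rw [e]
    exact ((tendsto_const_nhds.sub (tail_tendsto h0 h1 hx hx1)).const_mul _).const_add _
  rw [sub_zero] at l2
  exact tendsto_nhds_unique l1 l2

/-- the formula for the partial sums of odd order -/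
lemma A_odd {α : ℝ} (h0 : 0 < α) (h1 : α < 1) {x : ℂ} (hx : ‖x‖ ≤ 1) (hx1 : x ≠ -1)
    {m : ℕ} (hm : Odd m) :
    A α m x = (1 + x) ^ (α : ℂ) + C α * x ^ (m + 1) * ∫ t in (0 : ℝ)..1,
      ((t : ℂ) ^ m * (1 / (1 + x * t))) * ((w α t : ℝ) : ℂ) := by
  have i1 : IntervalIntegrable (fun t : ℝ => (1 / (1 + x * t)) * ((w α t : ℝ) : ℂ)) volume 0 1 :=
    w_cmul_integrable h0 h1 (cont_inv hx hx1)
  have i2 : IntervalIntegrable (fun t : ℝ => ((t : ℂ) ^ m * (1 / (1 + x * t))) *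
      ((w α t : ℝ) : ℂ)) volume 0 1 :=
    w_cmul_integrable h0 h1 (ContinuousOn.mul (by fun_prop) (cont_inv hx hx1))
  rw [cpow_int h0 h1 hx hx1, A_int h0 h1 m (one_add_ne hx hx1)]
  have e : ∫ t in (0 : ℝ)..1, (1 - (-(x * t)) ^ m) / (1 + x * t) * ((w α t : ℝ) : ℂ)
      = (∫ t in (0 : ℝ)..1, (1 / (1 + x * t)) * ((w α t : ℝ) : ℂ)) + x ^ m * ∫ t in (0 : ℝ)..1,
      ((t : ℂ) ^ m * (1 / (1 + x * t))) * ((w α t : ℝ) : ℂ) := by
    rw [← intervalIntegral.integral_const_mul, ← intervalIntegral.integral_add i1 (i2.const_mul _)]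
    congr 1
    ext t
    rw [hm.neg_pow, mul_pow]
    ring
  rw [e]
  ring

end Pool.Agent.Lib.P761a8f
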