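import Pool.Agent.Lib.P761a8f.Basic

set_option autoImplicit false

open Finset Filter Topology

namespace Pool.Agent.Lib.P761a8f

lemma choose_eq (α : ℝ) (n : ℕ) : Ring.choose (α : ℂ) n = ((b α n : ℝ) : ℂ) := by
  have h1 : (descPochhammer ℤ n).smeval (α : ℂ) = ∏ j ∈ range n, ((α : ℂ) - (j : ℂ)) := by
    induction n with
    | zero => simp
    | succ n ih =>
      rw [prod_range_succ, ← ih]
      simp [descPochhammer_succ_right, Polynomial.smeval_mul, Polynomial.smeval_natCast]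
  have h2 := Ring.descPochhammer_eq_factorial_smul_choose (α : ℂ) n
  rw [h1] at h2
  rw [← b_cast, h2]
  have h3 : (n.factorial : ℂ) ≠ 0 := by exact_mod_cast n.factorial_ne_zero
  rw [nsmul_eq_mul]
  field_simp

lemma hasSum_ball (α : ℝ) {x : ℂ} (hx : ‖x‖ < 1) :
    HasSum (fun n => ((b α n : ℝ) : ℂ) * x ^ n) ((1 + x) ^ (α : ℂ)) := by
  have h := (Complex.one_add_cpow_hasFPowerSeriesOnBall_zero (a := (α : ℂ))).hasSum (y := x)
    (by
      rw [← ENNReal.ofReal_one, Metric.eball_ofReal]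
      simpa using hx)
  simp only [zero_add] at h
  have e : (fun n => (binomialSeries ℂ (α : ℂ) n) fun _ => x)
      = fun n => ((b α n : ℝ) : ℂ) * x ^ n := by
    funext n
    rw [binomialSeries_apply, choose_eq]
    simp
  rw [e] at h
  exact h

lemma summable_b {α : ℝ} (h0 : 0 < α) (h1 : α < 1) : Summable (fun n => |b α n|) := by
  rw [← summable_nat_add_iff 1]
  have e : ∀ n, |b α (n + 1)| = c α n := by
    intro n
    rw [b_eq_c, abs_mul, abs_pow, abs_neg, abs_one, one_pow, one_mul,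
      abs_of_pos (c_pos h0 h1 n)]
  simp_rw [e]
  exact summable_of_sum_range_le (fun n => (c_pos h0 h1 n).le) (sum_c_le h0 h1)

/-- the binomial series on the closed disc minus `-1`. -/
lemma tendsto_A {α : ℝ} (h0 : 0 < α) (h1 : α < 1) {x : ℂ} (hx : ‖x‖ ≤ 1) (hx1 : x ≠ -1) :
    Tendsto (fun n => A α n x) atTop (𝓝 ((1 + x) ^ (α : ℂ))) := by
  set f : ℂ → ℂ := fun x => ∑' n, ((b α n : ℝ) : ℂ) * x ^ n with hf
  have hs := summable_b h0 h1
  have hbound : ∀ n, ∀ z ∈ Metric.closedBall (0 : ℂ) 1, ‖((b α n : ℝ) : ℂ) * z ^ n‖ ≤ |b α n| := by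
    intro n z hz
    have hz' : ‖z‖ ≤ 1 := by simpa using hz
    rw [norm_mul, norm_pow, Complex.norm_real, Real.norm_eq_abs]
    calc |b α n| * ‖z‖ ^ n ≤ |b α n| * 1 := by
          gcongr
          exact pow_le_one₀ (norm_nonneg _) hz'
      _ = |b α n| := mul_one _
  have hcont : ContinuousOn f (Metric.closedBall (0 : ℂ) 1) := by
    apply continuousOn_tsum (u := fun n => |b α n|) (fun n => by fun_prop) hs hbound
  have hxm : x ∈ Metric.closedBall (0 : ℂ) 1 := by simpa using hx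
  -- radial limit
  have hr : Tendsto (fun r : ℝ => (r : ℂ) * x) (𝓝[<] 1) (𝓝[Metric.closedBall (0 : ℂ) 1] x) := by
    apply tendsto_nhdsWithin_iff.mpr
    constructor
    · have : Tendsto (fun r : ℝ => (r : ℂ) * x) (𝓝 1) (𝓝 (((1 : ℝ) : ℂ) * x)) := by
        apply Continuous.tendsto
        fun_prop
      rw [Complex.ofReal_one, one_mul] at this
      exact this.mono_left nhdsWithin_le_nhds
    · have : ∀ᶠ r : ℝ in 𝓝[<] 1, r ∈ Set.Ioo (0 : ℝ) 1 :=
        Ioo_mem_nhdsLT (by norm_num)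
      filter_upwards [this] with r hr
      rw [mem_closedBall_zero_iff, norm_mul, Complex.norm_real, Real.norm_eq_abs,
        abs_of_pos hr.1]
      calc r * ‖x‖ ≤ 1 * 1 := by
            apply mul_le_mul hr.2.le hx (norm_nonneg _) (by norm_num)
        _ = 1 := by norm_num
  have l1 : Tendsto (fun r : ℝ => f ((r : ℂ) * x)) (𝓝[<] 1) (𝓝 (f x)) :=
    (hcont x hxm).tendsto.comp hr
  have l2 : Tendsto (fun r : ℝ => f ((r : ℂ) * x)) (𝓝[<] 1) (𝓝 ((1 + x) ^ (α : ℂ))) := by
    have hsl : 1 + x ∈ Complex.slitPlane := by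
      left
      rw [Complex.add_re, Complex.one_re]
      have h2 := (abs_le.mp (Complex.abs_re_le_norm x)).1
      by_contra hcon
      push Not at hcon
      have hre : x.re = -1 := by linarith
      have him : x.im = 0 := by
        have h3 := Complex.sq_norm x
        rw [Complex.normSq_apply, hre] at h3
        have h4 : ‖x‖ ^ 2 ≤ 1 := pow_le_one₀ (norm_nonneg _) hx
        nlinarith [sq_nonneg x.im]
      apply hx1
      apply Complex.ext <;> simp [hre, him]
    have hc : ContinuousAt (fun z : ℂ => (1 + z) ^ (α : ℂ)) x := by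
      apply ContinuousAt.cpow _ continuousAt_const hsl
      fun_prop
    have h5 : Tendsto (fun r : ℝ => (1 + (r : ℂ) * x) ^ (α : ℂ)) (𝓝[<] 1)
        (𝓝 ((1 + x) ^ (α : ℂ))) :=
      (hc.tendsto.mono_left nhdsWithin_le_nhds).comp hr
    apply h5.congr'
    have : ∀ᶠ r : ℝ in 𝓝[<] 1, r ∈ Set.Ioo (0 : ℝ) 1 :=
      Ioo_mem_nhdsLT (by norm_num)
    filter_upwards [this] with r hr
    have h6 : ‖(r : ℂ) * x‖ < 1 := by
      rw [norm_mul, Complex.norm_real, Real.norm_eq_abs, abs_of_pos hr.1]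
      calc r * ‖x‖ ≤ r * 1 := by
            apply mul_le_mul_of_nonneg_left hx hr.1.le
        _ < 1 := by linarith [hr.2]
    exact (hasSum_ball α h6).tsum_eq.symm
  have l3 : f x = (1 + x) ^ (α : ℂ) := tendsto_nhds_unique l1 l2
  have hsum : Summable (fun n => ((b α n : ℝ) : ℂ) * x ^ n) :=
    Summable.of_norm_bounded hs (fun n => hbound n x hxm)
  have h7 := hsum.hasSum.tendsto_sum_nat
  rw [← l3]
  exact (tendsto_add_atTop_iff_nat 1).mpr h7

end Pool.Agent.Lib.P761a8f
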