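import Pool.Agent.Lib.P761a8f.Main

set_option autoImplicit false

open Finset Filter Topology MeasureTheory intervalIntegral

namespace Pool.Agent.Lib.P761a8f

lemma strict_lt_one {α : ℝ} (h0 : 0 < α) (h1 : α < 1) {m : ℕ} (hm : Odd m) {x : ℂ}
    (hx : ‖x‖ = 1) (hx1 : x ≠ 1) : ‖A α m x‖ < A1 α m := by
  have hm0 : 0 < m := hm.pos
  by_cases hxm : x = -1
  · have e : A α m x = ((1 - ∑ k ∈ range m, c α k : ℝ) : ℂ) := by
      rw [hxm]
      unfold A
      rw [sum_range_succ', b_zero]
      push_cast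
      have : ∑ k ∈ range m, ((b α (k + 1) : ℝ) : ℂ) * (-1) ^ (k + 1)
          = -∑ k ∈ range m, ((c α k : ℝ) : ℂ) := by
        rw [← sum_neg_distrib]
        apply sum_congr rfl
        intro k _
        rw [b_eq_c]
        push_cast
        have h3 : ((-1 : ℂ) ^ k) * (-1) ^ k = 1 := by rw [← mul_pow]; simp
        linear_combination (-((c α k : ℝ) : ℂ)) * h3
      rw [this]
      ring
    rw [e, Complex.norm_real, Real.norm_eq_abs, abs_of_nonneg]
    · have := A1_ge_one h0 h1 hm
      have h3 : 0 < ∑ k ∈ range m, c α k :=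
        sum_pos (fun k _ => c_pos h0 h1 k) ⟨0, mem_range.mpr hm0⟩
      linarith
    · have := sum_c_le h0 h1 m
      linarith
  -- main case
  set δ : ℝ := ‖1 + x‖ / 2 with hδdef
  have hδ : 0 < δ := by
    have : 1 + x ≠ 0 := by
      intro h; apply hxm; linear_combination h
    have := norm_pos_iff.mpr this
    positivity
  have hx2 : x.re ^ 2 + x.im ^ 2 = 1 := by
    have := Complex.sq_norm x
    rw [hx, Complex.normSq_apply] at this
    nlinarith
  have e1 : ‖1 + x‖ ^ 2 = 2 + 2 * x.re := by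
    rw [Complex.sq_norm, Complex.normSq_apply]
    simp only [Complex.add_re, Complex.one_re, Complex.add_im, Complex.one_im, zero_add]
    linear_combination hx2
  have hre : x.re < 1 := by
    apply lt_of_le_of_ne (re_le_one hx)
    intro h
    apply hx1
    rw [h] at hx2
    have him : x.im = 0 := by nlinarith [sq_nonneg x.im]
    apply Complex.ext <;> simp [h, him]
  have hδ1 : δ < 1 := by
    have : ‖1 + x‖ ^ 2 < 2 ^ 2 := by rw [e1]; linarith
    have h3 := abs_lt_of_sq_lt_sq this (by norm_num)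
    rw [abs_of_nonneg (norm_nonneg _)] at h3
    rw [hδdef]; linarith
  have hCpos := C_pos h0 h1
  -- upper bound
  have hA : ‖A α m x‖ ≤ (2 * δ) ^ α + C α * ∫ t in (0 : ℝ)..1, (t ^ m * (1 / D δ t)) * w α t := by
    rw [A_odd h0 h1 hx.le hxm hm]
    calc _ ≤ ‖(1 + x) ^ (α : ℂ)‖ + ‖(C α : ℂ) * x ^ (m + 1) * ∫ t in (0 : ℝ)..1,
          ((t : ℂ) ^ m * (1 / (1 + x * t))) * ((w α t : ℝ) : ℂ)‖ := norm_add_le _ _
      _ ≤ (2 * δ) ^ α + C α * ∫ t in (0 : ℝ)..1, (t ^ m * (1 / D δ t)) * w α t := by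
        apply add_le_add
        · rw [Complex.norm_cpow_real]
          rw [show 2 * δ = ‖1 + x‖ by rw [hδdef]; ring]
        · rw [norm_mul, norm_mul, norm_pow, hx, one_pow, mul_one, Complex.norm_real,
            Real.norm_eq_abs, abs_of_pos hCpos]
          apply mul_le_mul_of_nonneg_left _ hCpos.le
          apply (intervalIntegral.norm_integral_le_integral_norm (by norm_num)).trans
          apply le_of_eq
          apply intervalIntegral.integral_congr
          intro t ht
          rw [Set.uIcc_of_le (by norm_num)] at ht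
          simp only
          rw [norm_mul, norm_mul, norm_div, norm_one, norm_pow, Complex.norm_real,
            Complex.norm_real, Real.norm_eq_abs, Real.norm_eq_abs, abs_of_nonneg ht.1,
            abs_of_nonneg (w_nonneg ht.1 ht.2), norm_one_add_mul hx]
  -- value at one
  have hA1 := A1_odd h0 h1 hm
  have p2 := real_pow_int h0 h1 (y := 1) (by norm_num) le_rfl
  have pδ := real_pow_int h0 h1 (y := 2 * δ - 1) (by linarith) (by linarith)
  have hker := ker_w_nonneg h0 h1 hδ hδ1
  -- split the kernel integral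
  have i1 := w_mul_integrable h0 h1 cont1'
  have iN := w_mul_integrable h0 h1 (contN hδ)
  have iDm := w_mul_integrable h0 h1 (contD hδ m)
  have i1m := w_mul_integrable h0 h1 (cont1 m)
  have cdiff : ContinuousOn (fun t : ℝ => (1 - t ^ m) * (1 / D δ t - 1 / (1 + t)))
      (Set.uIcc 0 1) := by
    have c1 := contD hδ 0
    simp only [pow_zero, one_mul] at c1
    exact ContinuousOn.mul (by fun_prop) (c1.sub cont1')
  have idiff := w_mul_integrable h0 h1 cdiff
  have hdiff : 0 < ∫ t in (0 : ℝ)..1, ((1 - t ^ m) * (1 / D δ t - 1 / (1 + t))) * w α t := by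
    apply intervalIntegral.intervalIntegral_pos_of_pos_on idiff _ (by norm_num)
    intro t ht
    have hw : 0 < w α t := by
      rw [w_eq ht.1 ht.2]
      apply Real.rpow_pos_of_pos
      apply div_pos (by linarith [ht.2]) ht.1
    have hD := D_pos hδ ht.1.le
    have hD2 := D_sq hδ ht.1.le
    have h1t : 0 < 1 + t := by linarith [ht.1]
    have hDlt : D δ t < 1 + t := by
      apply lt_of_pow_lt_pow_left₀ 2 h1t.le
      rw [hD2]
      have h9 : δ ^ 2 < 1 := by nlinarith
      nlinarith [ht.1, mul_lt_mul_of_pos_left h9 ht.1]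
    have h5 : 0 < 1 / D δ t - 1 / (1 + t) := by
      have := one_div_lt_one_div_of_lt hD hDlt
      linarith
    have h6 : t ^ m < 1 := pow_lt_one₀ ht.1.le ht.2 hm0.ne'
    have h7 : 0 < 1 - t ^ m := by linarith
    exact mul_pos (mul_pos h7 h5) hw
  have hkerle : (∫ t in (0 : ℝ)..1, ker δ t * w α t) +
      (∫ t in (0 : ℝ)..1, ((1 - t ^ m) * (1 / D δ t - 1 / (1 + t))) * w α t) =
      ∫ t in (0 : ℝ)..1,
      (((1 / (1 + t)) * w α t - (2 * δ - 1) * ((1 / (1 + (2 * δ - 1) * t)) * w α t))
        - ((t ^ m * (1 / D δ t)) * w α t - (t ^ m * (1 / (1 + t))) * w α t)) := by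
    rw [← intervalIntegral.integral_add (w_mul_integrable h0 h1 (ker_continuousOn hδ)) idiff]
    apply intervalIntegral.integral_congr
    intro t _
    simp only
    have h9 : (2 * δ - 1) / (1 + (2 * δ - 1) * t) = (2 * δ - 1) * (1 / (1 + (2 * δ - 1) * t)) := by
      ring
    unfold ker
    rw [h9]
    ring
  rw [intervalIntegral.integral_sub (i1.sub (iN.const_mul _)) (iDm.sub i1m),
    intervalIntegral.integral_sub i1 (iN.const_mul _), intervalIntegral.integral_sub iDm i1m,
    intervalIntegral.integral_const_mul] at hkerle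
  set I1 := ∫ t in (0 : ℝ)..1, (1 / (1 + t)) * w α t with hI1
  set IN := ∫ t in (0 : ℝ)..1, (1 / (1 + (2 * δ - 1) * t)) * w α t with hIN
  set ID := ∫ t in (0 : ℝ)..1, (t ^ m * (1 / D δ t)) * w α t with hID
  set Im := ∫ t in (0 : ℝ)..1, (t ^ m * (1 / (1 + t))) * w α t with hIm
  have p2' : (2 : ℝ) ^ α = 1 + C α * I1 := by
    have e : ∫ t in (0 : ℝ)..1, (1 / (1 + 1 * t)) * w α t = I1 := by
      rw [hI1]
      congr 1
      ext t
      rw [one_mul]
    rw [e] at p2
    norm_num at p2
    exact p2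
  have pδ' : (2 * δ) ^ α = 1 + C α * (2 * δ - 1) * IN := by
    have : 1 + (2 * δ - 1) = 2 * δ := by ring
    rw [this] at pδ
    exact pδ
  have hfin : 0 < (I1 - (2 * δ - 1) * IN) - (ID - Im) := by linarith
  have := mul_pos hCpos hfin
  rw [hA1]
  linarith


/-- strict version of the case `α ≥ 1` -/
def PS (α : ℝ) : Prop := ∀ n : ℕ, 1 ≤ n → ∀ x : ℂ, ‖x‖ = 1 → x ≠ 1 → ‖A α n x‖ < A1 α n

lemma re_lt_one {x : ℂ} (hx : ‖x‖ = 1) (hx1 : x ≠ 1) : x.re < 1 := by
  have hx2 : x.re ^ 2 + x.im ^ 2 = 1 := by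
    have := Complex.sq_norm x
    rw [hx, Complex.normSq_apply] at this
    nlinarith
  apply lt_of_le_of_ne (re_le_one hx)
  intro h
  apply hx1
  rw [h] at hx2
  have him : x.im = 0 := by nlinarith [sq_nonneg x.im]
  apply Complex.ext <;> simp [h, him]

lemma PS_succ {α : ℝ} (hP : P α) (h : PS α) : PS (α + 1) := by
  intro n hn x hx hx1
  obtain ⟨n, rfl⟩ : ∃ k, n = k + 1 := ⟨n - 1, by omega⟩
  rw [A_pascal, A1_pascal]
  calc _ ≤ ‖A α (n + 1) x‖ + ‖x * A α n x‖ := norm_add_le _ _
    _ < A1 α (n + 1) + A1 α n := by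
        rw [norm_mul, hx, one_mul]
        exact add_lt_add_of_lt_of_le (h _ (by omega) _ hx hx1) (hP _ _ hx)

lemma sum_c_odd_lt {γ : ℝ} (h0 : 0 < γ) (h1 : γ < 1) (j : ℕ) :
    ∑ i ∈ range j, c γ (2 * i + 1) < 1 := by
  have h := sum_c_odd_le h0 h1 (j + 1)
  rw [sum_range_succ] at h
  have := c_pos h0 h1 (2 * j + 1)
  linarith

lemma PS_one_two {γ : ℝ} (h0 : 0 < γ) (h1 : γ < 1) : PS (γ + 1) := by
  have hodd : ∀ j : ℕ, ∀ x : ℂ, ‖x‖ = 1 → x ≠ 1 →
      ‖A (γ + 1) (2 * j + 1) x‖ < A1 (γ + 1) (2 * j + 1) := by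
    intro j x hx hx1
    have h := odd_bound h0 h1 hx j
    have h2 := sum_c_odd_lt h0 h1 j
    have hre := re_lt_one hx hx1
    have h3 : 0 < (1 - x.re) / (2 + γ) *
      ((γ + 1) - (γ + 1) * ∑ i ∈ range j, c γ (2 * i + 1)) := by
      apply mul_pos (div_pos (by linarith) (by linarith))
      nlinarith
    linarith
  intro n hn x hx hx1
  rcases Nat.even_or_odd' n with ⟨j, rfl | rfl⟩
  · rcases j with _ | j
    · omega
    · rw [show 2 * (j + 1) = 2 * j + 1 + 1 by ring, A_succ, A1_succ]
      have hb := b_even_pos h0 h1 j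
      calc _ ≤ ‖A (γ + 1) (2 * j + 1) x‖ + ‖((b (γ + 1) (2 * j + 1 + 1) : ℝ) : ℂ) *
            x ^ (2 * j + 1 + 1)‖ := norm_add_le _ _
        _ < _ := by
            rw [norm_mul, norm_pow, hx, one_pow, mul_one, Complex.norm_real, Real.norm_eq_abs,
              abs_of_nonneg hb]
            exact add_lt_add_of_lt_of_le (hodd j x hx hx1) le_rfl
  · exact hodd j x hx hx1

lemma PS_one : PS 1 := by
  intro n hn x hx hx1
  have hb : ∀ k : ℕ, b 1 (k + 2) = 0 := by
    intro k
    unfold b
    have : ∏ j ∈ range (k + 2), ((1 : ℝ) - (j : ℝ)) = 0 := by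
      apply prod_eq_zero (i := 1) (by simp)
      simp
    rw [this, zero_div]
  have hA : ∀ n, A 1 (n + 1) x = 1 + x ∧ A1 1 (n + 1) = 2 := by
    intro n
    induction n with
    | zero =>
      constructor
      · rw [A_succ, A_zero, zero_add, b_one]; simp
      · rw [A1_succ, A1_zero, zero_add, b_one]; norm_num
    | succ n ih =>
      constructor
      · rw [A_succ, ih.1, hb]; simp
      · rw [A1_succ, ih.2, hb]; simp
  obtain ⟨n, rfl⟩ : ∃ k, n = k + 1 := ⟨n - 1, by omega⟩
  rw [(hA n).1, (hA n).2]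
  have hre := re_lt_one hx hx1
  have h2 := norm_sq_lin 1 1 hx
  simp only [Complex.ofReal_one, one_mul] at h2
  have h3 : ‖1 + x‖ ^ 2 < 2 ^ 2 := by rw [h2]; nlinarith
  have h4 := abs_lt_of_sq_lt_sq h3 (by norm_num)
  rwa [abs_of_nonneg (norm_nonneg _)] at h4

lemma PS_ge_one {α : ℝ} (hα : 1 ≤ α) : PS α := by
  have key : ∀ N : ℕ, ∀ α : ℝ, 1 ≤ α → α < N + 2 → PS α := by
    intro N
    induction N with
    | zero =>
      intro α h1 h2
      rcases eq_or_lt_of_le h1 with h | h
      · rw [← h]; exact PS_one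
      · have := PS_one_two (γ := α - 1) (by linarith) (by simp at h2; linarith)
        rwa [sub_add_cancel] at this
    | succ N ih =>
      intro α h1 h2
      by_cases h : α < N + 2
      · exact ih α h1 h
      · push Not at h
        have h3 : (0 : ℝ) ≤ N := Nat.cast_nonneg N
        push_cast at h2
        have := PS_succ (P_ge_one (by linarith)) (ih (α - 1) (by linarith) (by linarith))
        rwa [sub_add_cancel] at this
  obtain ⟨N, hN⟩ := exists_nat_gt α
  exact key N α hα (by linarith)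

theorem strict (α : ℝ) (h0 : 0 < α) (m : ℕ) (hm : Odd m) (x : ℂ) (hx : ‖x‖ = 1) (hx1 : x ≠ 1) :
    ‖A α m x‖ < A1 α m := by
  rcases lt_or_ge α 1 with h | h
  · exact strict_lt_one h0 h hm hx hx1
  · exact PS_ge_one h m hm.pos x hx hx1

lemma A_continuous (α : ℝ) (m : ℕ) : Continuous (A α m) := by
  unfold A
  fun_prop

lemma A_differentiable (α : ℝ) (m : ℕ) : Differentiable ℂ (A α m) := by
  unfold A
  fun_prop

/-- strict inequality in the closed disc away from `1` -/
theorem strict_disc (α : ℝ) (h0 : 0 < α) (m : ℕ) (hm : Odd m) (x : ℂ) (hx : ‖x‖ ≤ 1)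
    (hx1 : x ≠ 1) : ‖A α m x‖ < A1 α m := by
  rcases hx.lt_or_eq with h | h
  swap
  · exact strict α h0 m hm x h hx1
  have hle : ∀ z : ℂ, ‖z‖ ≤ 1 → ‖A α m z‖ ≤ A1 α m := by
    intro z hz
    have hfr : frontier (Metric.ball (0 : ℂ) 1) = Metric.sphere 0 1 :=
      frontier_ball 0 one_ne_zero
    have hcl : closure (Metric.ball (0 : ℂ) 1) = Metric.closedBall 0 1 :=
      closure_ball 0 one_ne_zero
    apply Complex.norm_le_of_forall_mem_frontier_norm_le (U := Metric.ball (0 : ℂ) 1)
      Metric.isBounded_ball (A_differentiable α m).diffContOnCl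
    · intro w hw
      rw [hfr] at hw
      exact main α h0 m hm w (by simpa using hw)
    · rw [hcl]; simpa using hz
  by_contra hcon
  push Not at hcon
  have heq : ‖A α m x‖ = A1 α m := le_antisymm (hle x hx) hcon
  have hmax : IsMaxOn (norm ∘ A α m) (Metric.ball (0 : ℂ) 1) x := by
    intro z hz
    have hz1 : ‖z‖ < 1 := by simpa using hz
    simp only [Set.mem_ofPred_eq, Function.comp_apply]
    rw [heq]
    exact hle z hz1.le
  have hc := Complex.eqOn_closedBall_of_isMaxOn_norm (z := x) (r := 1 - ‖x‖) (f := A α m)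
    (A_differentiable α m).diffContOnCl
    (hmax.on_subset (by
      intro z hz
      rw [Metric.mem_ball, dist_eq_norm] at hz
      have h1 : ‖z‖ ≤ ‖z - x‖ + ‖x‖ := by
        calc ‖z‖ = ‖(z - x) + x‖ := by ring_nf
          _ ≤ _ := norm_add_le _ _
      rw [mem_ball_zero_iff]
      linarith))
  -- the function is constant on the whole ball
  have hconst : Set.EqOn (norm ∘ A α m) (Function.const ℂ ‖A α m x‖) (Metric.ball (0 : ℂ) 1) := by
    have := Complex.norm_eqOn_of_isPreconnected_of_isMaxOn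
      (convex_ball (0 : ℂ) 1).isPreconnected Metric.isOpen_ball
      (A_differentiable α m).differentiableOn (by simpa using h) hmax
    exact this
  have hlim : ‖A α m (-1)‖ = A1 α m := by
    have hcts : ContinuousOn (norm ∘ A α m) (closure (Metric.ball (0 : ℂ) 1)) :=
      (continuous_norm.comp (A_continuous α m)).continuousOn
    have h1 := hconst.closure (continuous_norm.comp (A_continuous α m)) continuous_const
    have h2 : (-1 : ℂ) ∈ closure (Metric.ball (0 : ℂ) 1) := by
      rw [closure_ball 0 one_ne_zero]; simp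
    have h3 := h1 h2
    simp only [Function.comp_apply, Function.const_apply] at h3
    rw [h3, heq]
  have h5 := strict α h0 m hm (-1) (by simp) (by norm_num)
  linarith

end Pool.Agent.Lib.P761a8f
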