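import Pool.Agent.Lib.P761a8f.Strict
import Pool.Agent.Lib.P761a8f.Series

set_option autoImplicit false

open Finset Filter Topology

namespace Pool.Agent.Lib.P761a8f

/-- the Cauchy product of the geometric series and the binomial series -/
lemma hasSum_prod (α : ℝ) (x : ℂ) {z : ℂ} (hz : ‖z‖ < 1) (hxz : ‖x * z‖ < 1) :
    HasSum (fun n => A α n x * z ^ n) ((1 - z) ^ (-1 : ℂ) * (1 + x * z) ^ (α : ℂ)) := by
  have h1 := hasSum_geometric_of_norm_lt_one hz
  have h2 := hasSum_ball α hxz
  have e : ∀ n, A α n x * z ^ n = ∑ kl ∈ antidiagonal n,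
      (((b α kl.1 : ℝ) : ℂ) * (x * z) ^ kl.1) * z ^ kl.2 := by
    intro n
    rw [Finset.Nat.sum_antidiagonal_eq_sum_range_succ_mk]
    unfold A
    rw [sum_mul]
    apply sum_congr rfl
    intro k hk
    have hk' : k ≤ n := by
      have := mem_range.mp hk
      omega
    have : z ^ n = z ^ k * z ^ (n - k) := by rw [← pow_add]; congr 1; omega
    simp only
    rw [this, mul_pow]
    ring
  have h3 := tsum_mul_tsum_eq_tsum_sum_antidiagonal_of_summable_norm h2.summable.norm
    h1.summable.norm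
  have h4 := (summable_norm_sum_mul_antidiagonal_of_summable_norm h2.summable.norm
    h1.summable.norm).of_norm.hasSum
  rw [← h3, h2.tsum_eq, h1.tsum_eq] at h4
  simp_rw [e]
  rw [Complex.cpow_neg_one, mul_comm (1 - z)⁻¹]
  exact h4

/-- The Taylor coefficients of `(1-z)⁻¹ (1+xz)^α` are the partial sums of the binomial series. -/
theorem taylor_coeff (α : ℝ) (x : ℂ) (n : ℕ) :
    iteratedDeriv n (fun z : ℂ => (1 - z) ^ (-1 : ℂ) * (1 + x * z) ^ (α : ℂ)) 0
      / (n.factorial : ℂ) = A α n x := by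
  set f : ℂ → ℂ := fun z : ℂ => (1 - z) ^ (-1 : ℂ) * (1 + x * z) ^ (α : ℂ) with hf
  have hps : HasFPowerSeriesAt f (FormalMultilinearSeries.ofScalars ℂ (fun n => A α n x)) 0 := by
    rw [hasFPowerSeriesAt_iff]
    have hr : (0 : ℝ) < 1 / (1 + ‖x‖) := by positivity
    filter_upwards [Metric.ball_mem_nhds (0 : ℂ) hr] with z hz
    have hz1 : ‖z‖ < 1 / (1 + ‖x‖) := by simpa using hz
    have hz2 : ‖z‖ * (1 + ‖x‖) < 1 := by
      rwa [lt_div_iff₀ (by positivity)] at hz1
    have h := hasSum_prod α x (z := z)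
      (by nlinarith [norm_nonneg z, norm_nonneg x])
      (by rw [norm_mul]; nlinarith [norm_nonneg z, norm_nonneg x])
    rw [zero_add]
    simp only [FormalMultilinearSeries.coeff_ofScalars, smul_eq_mul]
    simp_rw [mul_comm (z ^ _)]
    exact h
  have h1 := hps.analyticAt.hasFPowerSeriesAt
  have h2 := hps.eq_formalMultilinearSeries h1
  have h3 := congrArg (fun p => FormalMultilinearSeries.coeff p n) h2
  simp only [FormalMultilinearSeries.coeff_ofScalars] at h3
  exact h3.symm

end Pool.Agent.Lib.P761a8f
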